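import Pool.Agent.LibQ9.HWA
import Pool.Agent.LibQB9.HFinH

/-!
LibQB9: the version of LibQ9.HWA with the free curves of the fibres as a hypothesis.
-/

set_option autoImplicit false

namespace Q9

theorem wa_mdl_h {k K : Type} [Field k] [IsAlgClosed k] [Field K]
    [Algebra k K] (M : Mdl k K) {n : ℕ} (hn : 4 ≤ n) (hn0 : (n : k) ≠ 0)
    (F : MvPolynomial (Fin (n + 1)) M.O) (hF : F.IsHomogeneous n)
    (hs : ∀ x : Fin (n + 1) → AlgebraicClosure K, (∀ i, MvPolynomial.aeval x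
      (MvPolynomial.pderiv i (MvPolynomial.map (M.O.subtype : M.O →+* K) F)) = 0) → x = 0)
    (P : Fin (n + 1) → M.O) (hP0 : P ≠ 0) (hP : MvPolynomial.eval P F = 0) {r : ℕ}
    (ev : Fin r → (M.O →ₐ[k] k)) (hinj : Function.Injective ev)
    (hgood : ∀ j, Smooth (MvPolynomial.map (ev j : M.O →+* k) F))
    (hfree : ∃ Zf : Finset k, ∀ ev : M.O →ₐ[k] k, ev M.t ∉ Zf → Smooth (MvPolynomial.map (ev : M.O →+* k) F) →
      ∃ (d : ℕ) (γ : Fin (n + 1) → Polynomial k), Free (MvPolynomial.map (ev : M.O →+* k) F) d γ)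
    (hfreej : ∀ j, ∃ (d : ℕ) (γ : Fin (n + 1) → Polynomial k), Free (MvPolynomial.map (ev j : M.O →+* k) F) d γ)
    (N : ℕ) (hN : 1 ≤ N)
    (y : Fin r → Fin (n + 1) → M.O) (hy : ∀ j, ∃ a, ev j (y j a) ≠ 0)
    (hyF : ∀ j, MvPolynomial.eval (y j) F ∈ RingHom.ker (ev j : M.O →+* k) ^ N) :
    ∃ x : Fin (n + 1) → M.O, x ≠ 0 ∧ MvPolynomial.eval x F = 0 ∧
      ∀ j a, x a - y j a ∈ RingHom.ker (ev j : M.O →+* k) ^ N := by
  choose π hπ using fun j => M.plc (ev j)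
  have hx : ∀ j, Cg M.O (ev j) (π j) N ((MvPolynomial.eval (y j) F : M.O) : K) 0 := by
    intro j
    have h := cg_of_pow (hπ j) N (MvPolynomial.eval (y j) F) 0 (by simpa using hyF j)
    simpa using h
  obtain ⟨x, hx0, hxF, hxc⟩ := weak_approx_mdl_h hn hn0 M F hF (sm_of_closure _ hs) P hP0 hP ev hinj
    π hπ hgood hfree hfreej N hN y hy hx
  exact ⟨x, hx0, hxF, fun j a => pow_of_cg (hπ j) N _ _ (hxc j a)⟩

end Q9
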