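import Pool.Agent.LibQB9.E3
import Pool.Agent.LibQB9.MFinH
import Pool.Agent.LibQ9.B4
import Pool.Agent.LibQ9.T0

/-!
LibQB9: a free curve over the algebraic closure of the function field from a free curve on one fibre.
-/

set_option autoImplicit false

namespace QB9

open Polynomial

/-- the residue field of a place of a function field over an algebraically closed field `k` is `k` -/
theorem residue_bijective {k K : Type} [Field k] [IsAlgClosed k] [Field K] [Algebra k K]
    [Algebra.EssFiniteType k K] (htr : Algebra.trdeg k K = 1) (A : ValuationSubring K)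
    (hk : ∀ c : k, algebraMap k K c ∈ A) (hA : A ≠ ⊤) :
    Function.Bijective ((IsLocalRing.residue A).comp ((algebraMap k K).codRestrict A hk)) := by
  refine ⟨RingHom.injective _, fun z => ?_⟩
  obtain ⟨a, rfl⟩ := IsLocalRing.residue_surjective z
  obtain ⟨g, hg⟩ := Q9.exists_gn_pl htr (fun _ : Fin 1 => A) (fun _ => hk)
  obtain ⟨hOA, ev, hev⟩ := Q9.exists_ev_val g A hk (hg 0) hA
  obtain ⟨π, hπ⟩ := (Q9.mdlG g).plc ev
  have hded := Q9.OI_dedekind g
  obtain ⟨y, hy⟩ := Q9.pl_approx (Q9.OI g) (Q9.OI_frac g) A hOA ev hev π hπ 1 a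
  rw [pow_one] at hy
  refine ⟨ev y, ?_⟩
  have h1 : IsLocalRing.residue A a = IsLocalRing.residue A ⟨(y : K), hOA y y.2⟩ := by
    rw [← sub_eq_zero, ← map_sub, IsLocalRing.residue_eq_zero_iff]
    exact hy
  rw [h1]
  change IsLocalRing.residue A ((algebraMap k K).codRestrict A hk (ev y)) = _
  rw [← sub_eq_zero, ← map_sub, IsLocalRing.residue_eq_zero_iff, ValuationSubring.valuation_lt_one_iff]
  have h2 : A.valuation ((algebraMap k (Q9.OI g) (ev y) - y : Q9.OI g) : K) < 1 := by
    rw [← hev, map_sub, AlgHom.commutes, Algebra.algebraMap_self_apply, sub_self]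
  exact h2

theorem isAlgClosed_residue {k K : Type} [Field k] [IsAlgClosed k] [Field K] [Algebra k K]
    [Algebra.EssFiniteType k K] (htr : Algebra.trdeg k K = 1) (A : ValuationSubring K)
    (hk : ∀ c : k, algebraMap k K c ∈ A) (hA : A ≠ ⊤) : IsAlgClosed (IsLocalRing.ResidueField A) :=
  IsAlgClosed.of_ringEquiv k _ (RingEquiv.ofBijective _ (residue_bijective htr A hk hA))

theorem charP_residue (p : ℕ) {k K : Type} [Field k] [CharP k p] [Field K] [Algebra k K] (A : ValuationSubring K)
    (hk : ∀ c : k, algebraMap k K c ∈ A) : CharP (IsLocalRing.ResidueField A) p :=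
  charP_of_injective_ringHom (f := (IsLocalRing.residue A).comp ((algebraMap k K).codRestrict A hk))
    (RingHom.injective _) p

/-- a multiple of the equation has the same free curves -/
theorem free_C_mul {k κ : Type} [Field k] [Field κ] [Algebra k κ] {n : ℕ} (F : MvPolynomial (Fin (n + 1)) k) (c : k)
    (hc : c ≠ 0) (d : ℕ) (γ : Fin (n + 1) → κ[X]) (h : Q9.Free (MvPolynomial.C c * F) d γ) : Q9.Free F d γ := by
  obtain ⟨h1, ⟨h2, h3⟩, h4⟩ := h
  have hc' : algebraMap k κ c ≠ 0 := fun h => hc ((map_eq_zero _).1 h)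
  have hC : ∀ H : MvPolynomial (Fin (n + 1)) k, MvPolynomial.aeval γ (MvPolynomial.C c * H) =
      Polynomial.C (algebraMap k κ c) * MvPolynomial.aeval γ H := by
    intro H
    rw [map_mul, MvPolynomial.aeval_C]
    rfl
  refine ⟨h1, ⟨h2, ?_⟩, fun f hf => ?_⟩
  · rw [hC] at h3
    exact (mul_eq_zero.1 h3).resolve_left fun h => hc' (C_eq_zero.1 h)
  · obtain ⟨a, ha, haf⟩ := h4 f hf
    refine ⟨fun i => Polynomial.C (algebraMap k κ c) * a i, fun i => ?_, ?_⟩
    · change (Polynomial.C (algebraMap k κ c) * a i).degree < (d : ℕ)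
      rw [← smul_eq_C_mul]
      exact lt_of_le_of_lt (degree_smul_le _ _) (ha i)
    · rw [← haf]
      unfold Q9.grad
      refine Finset.sum_congr rfl fun i _ => ?_
      rw [Derivation.leibniz, MvPolynomial.pderiv_C, smul_zero, add_zero, smul_eq_mul, hC]
      ring

/-- a free curve over the algebraic closure from a free curve over some extension -/
theorem exists_free_closure {K L : Type} [Field K] [Field L] [Algebra K L] {n : ℕ} (hn : 2 ≤ n)
    (F : MvPolynomial (Fin (n + 1)) K) (d : ℕ) (γ : Fin (n + 1) → L[X]) (h : Q9.Free F d γ) :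
    ∃ γ' : Fin (n + 1) → (AlgebraicClosure K)[X],
      Q9.Free (MvPolynomial.map (algebraMap K (AlgebraicClosure K)) F) d γ' := by
  let e : AlgebraicClosure K →ₐ[K] AlgebraicClosure L := IsAlgClosed.lift
  letI : Algebra (AlgebraicClosure K) (AlgebraicClosure L) := e.toRingHom.toAlgebra
  haveI : IsScalarTower K (AlgebraicClosure K) (AlgebraicClosure L) :=
    IsScalarTower.of_algebraMap_eq fun x => (e.commutes x).symm
  have h1 := Q9.Free.map F (IsScalarTower.toAlgHom K L (AlgebraicClosure L)) h
  have h2 := (Q9.free_bc (κ := AlgebraicClosure K) F d _).2 h1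
  obtain ⟨γ', hγ', -⟩ := Q9.free_transfer _ d _ h2
  exact ⟨γ', hγ'⟩

/-- a free curve over the algebraic closure of `K` from a free curve on the reduction at one place -/
theorem exists_free_of_place {K : Type} [Field K] {n : ℕ} (hn : 2 ≤ n)
    (F : MvPolynomial (Fin (n + 1)) K) (hF : F.IsHomogeneous n) (A : ValuationSubring K) (c : K) (hc : c ≠ 0)
    (G : MvPolynomial (Fin (n + 1)) A) (hG : MvPolynomial.map (algebraMap A K) G = MvPolynomial.C c * F)
    (hfree : ∃ (d : ℕ) (γ : Fin (n + 1) → (IsLocalRing.ResidueField A)[X]),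
      Q9.Free (MvPolynomial.map (IsLocalRing.residue A) G) d γ) :
    ∃ (d : ℕ) (γ : Fin (n + 1) → (AlgebraicClosure K)[X]),
      Q9.Free (MvPolynomial.map (algebraMap K (AlgebraicClosure K)) F) d γ := by
  obtain ⟨d, γ₀, h⟩ := hfree
  have hinj : Function.Injective (algebraMap A K) := Subtype.val_injective
  have hGh : G.IsHomogeneous n := by
    intro m hm
    apply hF
    intro h0
    apply hm
    apply hinj
    rw [map_zero, ← MvPolynomial.coeff_map, hG, MvPolynomial.coeff_C_mul, h0, mul_zero]
  obtain ⟨L, i1, i2, γ, hγ⟩ := free_generic (K := K) hinj (IsLocalRing.residue A) IsLocalRing.residue_surjective hn G hGh d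
    γ₀ h
  rw [hG] at hγ
  obtain ⟨γ', hγ'⟩ := exists_free_closure hn F d γ (free_C_mul F c hc d γ hγ)
  exact ⟨d, γ', hγ'⟩

end QB9
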