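import Mathlib

/-!
LibQB9: a point of the generic fibre of a square etale system from a point of a special fibre.
-/

set_option autoImplicit false

namespace QB9

open MvPolynomial TensorProduct

section

variable {A : Type} [CommRing A] {r : ℕ}

/-- the equations `f_l(w) = 0`, `y E(w) = 1` -/
noncomputable def vE (f : Fin r → MvPolynomial (Fin r) A) (E : MvPolynomial (Fin r) A) :
    Fin r ⊕ Unit → MvPolynomial (Fin r ⊕ Unit) A :=
  Sum.elim (fun l => rename Sum.inl (f l)) (fun _ => X (Sum.inr ()) * rename Sum.inl E - 1)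

theorem pderiv_rename_inl (i : Fin r) (g : MvPolynomial (Fin r) A) :
    pderiv (Sum.inl i : Fin r ⊕ Unit) (rename Sum.inl g) = rename Sum.inl (pderiv i g) := by
  exact pderiv_rename Sum.inl_injective i g

theorem pderiv_rename_inr (g : MvPolynomial (Fin r) A) :
    pderiv (Sum.inr () : Fin r ⊕ Unit) (rename Sum.inl g) = 0 := by
  induction g using MvPolynomial.induction_on with
  | C a => simp
  | add p q hp hq => rw [map_add, map_add, hp, hq, add_zero]
  | mul_X p i hp => rw [map_mul, Derivation.leibniz, hp, rename_X, pderiv_X]; simp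

/-- the Jacobian of `vE` -/
theorem jac_vE (f : Fin r → MvPolynomial (Fin r) A) (E : MvPolynomial (Fin r) A) :
    (Matrix.of fun i j => pderiv i (vE f E j)).det =
      rename Sum.inl ((Matrix.of fun i j => pderiv i (f j)).det) * rename Sum.inl E := by
  have h : (Matrix.of fun i j => pderiv i (vE f E j)) = Matrix.fromBlocks
      ((Matrix.of fun i j => pderiv i (f j)).map (rename (Sum.inl : Fin r → Fin r ⊕ Unit) : MvPolynomial (Fin r) A →ₐ[A] _))
      (Matrix.of fun i (_ : Unit) => pderiv (Sum.inl i) (vE f E (Sum.inr ()))) 0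
      (Matrix.of fun (_ _ : Unit) => rename Sum.inl E) := by
    refine Matrix.ext fun i j => ?_
    rcases i with i | i <;> rcases j with j | j
    · exact pderiv_rename_inl i (f j)
    · rfl
    · exact pderiv_rename_inr (f j)
    · change pderiv (Sum.inr ()) (X (Sum.inr ()) * rename Sum.inl E - 1 : MvPolynomial (Fin r ⊕ Unit) A) = rename Sum.inl E
      rw [map_sub, Derivation.leibniz, pderiv_rename_inr, pderiv_X_self, Derivation.map_one_eq_zero]
      simp
  rw [h, Matrix.det_fromBlocks_zero₂₁]
  congr 1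
  · exact (AlgHom.map_det (rename (Sum.inl : Fin r → Fin r ⊕ Unit) : MvPolynomial (Fin r) A →ₐ[A] MvPolynomial (Fin r ⊕ Unit) A) _).symm
  · rw [Matrix.det_unique]
    rfl

end

theorem exists_field_quot (K S : Type) [Field K] [CommRing S] [Nontrivial S] [Algebra K S] :
    ∃ (Ω : Type) (_ : Field Ω) (_ : Algebra K Ω) (g : S →+* Ω), ∀ a, g (algebraMap K S a) = algebraMap K Ω a := by
  obtain ⟨m, hm⟩ := Ideal.exists_maximal S
  letI : Field (S ⧸ m) := Ideal.Quotient.field m
  exact ⟨S ⧸ m, inferInstance, inferInstance, Ideal.Quotient.mk m, fun a => rfl⟩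

/-- a point of the generic fibre of a square system with invertible Jacobian at a point of a special fibre -/
theorem exists_point {A K κ : Type} [CommRing A] [IsDomain A] [Field K] [Algebra A K] [Field κ]
    (hAK : Function.Injective (algebraMap A K)) (ρ : A →+* κ) {r : ℕ}
    (f : Fin r → MvPolynomial (Fin r) A) (D : MvPolynomial (Fin r) A) (w₀ : Fin r → κ)
    (h0 : ∀ l, eval₂ ρ w₀ (f l) = 0) (hJ : eval₂ ρ w₀ (Matrix.of fun i j => pderiv i (f j)).det ≠ 0)
    (hD : eval₂ ρ w₀ D ≠ 0) :
    ∃ (Ω : Type) (_ : Field Ω) (_ : Algebra K Ω) (w : Fin r → Ω),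
      (∀ l, eval₂ ((algebraMap K Ω).comp (algebraMap A K)) w (f l) = 0) ∧
      eval₂ ((algebraMap K Ω).comp (algebraMap A K)) w D ≠ 0 := by
  classical
  set E : MvPolynomial (Fin r) A := D * (Matrix.of fun i j => pderiv i (f j)).det with hE
  let v := vE f E
  let I : Ideal (MvPolynomial (Fin r ⊕ Unit) A) := Ideal.span (Set.range v)
  let B := MvPolynomial (Fin r ⊕ Unit) A ⧸ I
  let P : Algebra.PreSubmersivePresentation A B (Fin r ⊕ Unit) (Fin r ⊕ Unit) :=
    Algebra.PreSubmersivePresentation.naive (v := v) id Function.injective_id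
  have hv : ∀ s, (Ideal.Quotient.mk I (v s)) = 0 := fun s =>
    Ideal.Quotient.eq_zero_iff_mem.2 (Ideal.subset_span (Set.mem_range_self s))
  have hy : Ideal.Quotient.mk I (X (Sum.inr ())) * Ideal.Quotient.mk I (rename Sum.inl E) = 1 := by
    have h := hv (Sum.inr ())
    change Ideal.Quotient.mk I (X (Sum.inr ()) * rename Sum.inl E - 1) = 0 at h
    rw [map_sub, map_mul, map_one, sub_eq_zero] at h
    exact h
  have hEu : IsUnit (Ideal.Quotient.mk I (rename Sum.inl E)) := IsUnit.of_mul_eq_one_right _ hy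
  have hJu : IsUnit (Ideal.Quotient.mk I (rename Sum.inl ((Matrix.of fun i j => pderiv i (f j)).det))) := by
    have h := hEu
    rw [hE, map_mul, map_mul] at h
    exact isUnit_of_mul_isUnit_right h
  have hDu : IsUnit (Ideal.Quotient.mk I (rename Sum.inl D)) := by
    have h := hEu
    rw [hE, map_mul, map_mul] at h
    exact isUnit_of_mul_isUnit_left h
  have hPj : P.jacobian = Ideal.Quotient.mk I (Matrix.of fun i j => pderiv i (v j)).det := by
    rw [Algebra.PreSubmersivePresentation.jacobian_eq_jacobiMatrix_det]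
    have h1 : P.jacobiMatrix = Matrix.of fun i j => pderiv i (v j) := by
      refine Matrix.ext fun i j => ?_
      exact Algebra.PreSubmersivePresentation.jacobiMatrix_naive (v := v) id Function.injective_id _ _ i j
    rw [h1]
    rfl
  have hP : IsUnit P.jacobian := by
    rw [hPj, jac_vE, map_mul]
    exact hJu.mul hEu
  let P' : Algebra.SubmersivePresentation A B (Fin r ⊕ Unit) (Fin r ⊕ Unit) := { P with jacobian_isUnit := hP }
  haveI : Algebra.IsStandardSmooth A B := P'.isStandardSmooth
  haveI : Module.Flat A B := inferInstance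
  -- `B` is not zero
  let x₀ : Fin r ⊕ Unit → κ := Sum.elim w₀ fun _ => (eval₂ ρ w₀ E)⁻¹
  have hren : ∀ g : MvPolynomial (Fin r) A, eval₂ ρ x₀ (rename Sum.inl g) = eval₂ ρ w₀ g := by
    intro g
    rw [eval₂_rename]
    rfl
  have hE0 : eval₂ ρ w₀ E ≠ 0 := by
    rw [hE, eval₂_mul]
    exact mul_ne_zero hD hJ
  let φ : B →+* κ := Ideal.Quotient.lift I (eval₂Hom ρ x₀) (by
    intro a ha
    have h1 : I ≤ RingHom.ker (eval₂Hom ρ x₀) := by
      rw [Ideal.span_le]
      rintro _ ⟨s, rfl⟩
      rcases s with l | s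
      · change eval₂ ρ x₀ (rename Sum.inl (f l)) = 0
        rw [hren, h0]
      · change eval₂ ρ x₀ (X (Sum.inr ()) * rename Sum.inl E - 1) = 0
        rw [eval₂_sub, eval₂_mul, hren, eval₂_X, eval₂_one]
        change (eval₂ ρ w₀ E)⁻¹ * eval₂ ρ w₀ E - 1 = 0
        rw [inv_mul_cancel₀ hE0, sub_self]
    exact h1 ha)
  haveI hBn : Nontrivial B := φ.domain_nontrivial
  -- the generic fibre is not zero
  have hinj : Function.Injective (Algebra.TensorProduct.includeRight : B →ₐ[A] K ⊗[A] B) :=
    Algebra.TensorProduct.includeRight_injective (by exact hAK)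
  haveI : Nontrivial (K ⊗[A] B) := hinj.nontrivial
  obtain ⟨Ω, i1, i2, g, hg⟩ := exists_field_quot K (K ⊗[A] B)
  let ψ : B →+* Ω := g.comp (Algebra.TensorProduct.includeRight : B →ₐ[A] K ⊗[A] B).toRingHom
  have hψ : ∀ h : MvPolynomial (Fin r) A, ψ (Ideal.Quotient.mk I (rename Sum.inl h)) =
      eval₂ ((algebraMap K Ω).comp (algebraMap A K)) (fun l => ψ (Ideal.Quotient.mk I (X (Sum.inl l)))) h := by
    intro h
    have h1 : ((ψ.comp (Ideal.Quotient.mk I)).comp (rename Sum.inl : MvPolynomial (Fin r) A →ₐ[A] MvPolynomial (Fin r ⊕ Unit) A).toRingHom) =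
        eval₂Hom ((algebraMap K Ω).comp (algebraMap A K)) (fun l => ψ (Ideal.Quotient.mk I (X (Sum.inl l)))) := by
      apply MvPolynomial.ringHom_ext
      · intro a
        simp only [RingHom.comp_apply, AlgHom.toRingHom_eq_coe, RingHom.coe_coe, rename_C, eval₂Hom_C]
        change g ((Algebra.TensorProduct.includeRight : B →ₐ[A] K ⊗[A] B) (algebraMap A B a)) = algebraMap K Ω (algebraMap A K a)
        rw [AlgHom.commutes, IsScalarTower.algebraMap_apply A K (K ⊗[A] B), hg]
      · intro l
        simp only [RingHom.comp_apply, AlgHom.toRingHom_eq_coe, RingHom.coe_coe, rename_X, eval₂Hom_X']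
    exact RingHom.congr_fun h1 h
  refine ⟨Ω, i1, i2, fun l => ψ (Ideal.Quotient.mk I (X (Sum.inl l))), fun l => ?_, ?_⟩
  · rw [← hψ]
    have h := hv (Sum.inl l)
    change Ideal.Quotient.mk I (rename Sum.inl (f l)) = 0 at h
    rw [h, map_zero]
  · rw [← hψ]
    exact (hDu.map ψ).ne_zero

end QB9
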