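import Pool.Agent.LibQB9.E1
import Pool.Agent.LibQ9.B2
import Pool.Agent.LibQ9.B3

/-!
LibQB9: free curves generalise from a special fibre (residue field) to the generic fibre.
-/

set_option autoImplicit false

namespace QB9

open Polynomial

section general

variable {A S S' : Type} [CommRing A] [CommRing S] [CommRing S'] {N r : ℕ}

/-- a derivation applied to the coefficients -/
noncomputable def dC [Algebra A S] (D : Derivation A S S) (p : S[X]) : S[X] :=
  p.sum fun n a => monomial n (D a)

theorem dC_coeff [Algebra A S] (D : Derivation A S S) (p : S[X]) (n : ℕ) : (dC D p).coeff n = D (p.coeff n) := by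
  classical
  unfold dC
  rw [Polynomial.sum_def, finsetSum_coeff]
  simp only [coeff_monomial]
  rw [Finset.sum_ite_eq']
  split_ifs with h
  · rfl
  · rw [notMem_support_iff.1 h, map_zero]

theorem dC_add [Algebra A S] (D : Derivation A S S) (p q : S[X]) : dC D (p + q) = dC D p + dC D q := by
  ext n
  rw [coeff_add, dC_coeff, dC_coeff, dC_coeff, coeff_add, map_add]

theorem dC_mul [Algebra A S] (D : Derivation A S S) (p q : S[X]) : dC D (p * q) = p * dC D q + q * dC D p := by
  ext n
  rw [coeff_add, dC_coeff, coeff_mul, map_sum, coeff_mul, mul_comm q, coeff_mul, ← Finset.sum_add_distrib]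
  refine Finset.sum_congr rfl fun x _ => ?_
  rw [D.leibniz, dC_coeff, dC_coeff, smul_eq_mul, smul_eq_mul, mul_comm (q.coeff x.2)]

/-- the value `G(x)` at a vector of polynomials -/
noncomputable def Ev (θ : A →+* S) (x : Fin N → S[X]) (G : MvPolynomial (Fin N) A) : S[X] :=
  MvPolynomial.eval₂ (Polynomial.C.comp θ) x G

theorem map_Ev (θ : A →+* S) (φ : S →+* S') (x : Fin N → S[X]) (G : MvPolynomial (Fin N) A) :
    (Ev θ x G).map φ = Ev (φ.comp θ) (fun i => (x i).map φ) G := by
  unfold Ev
  have h := MvPolynomial.hom_eval₂ G (Polynomial.C.comp θ) (mapRingHom φ) x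
  rw [coe_mapRingHom] at h
  rw [h]
  congr 1
  ext a
  simp

theorem dC_Ev [Algebra A S] (D : Derivation A S S) (x : Fin N → S[X]) (G : MvPolynomial (Fin N) A) :
    dC D (Ev (algebraMap A S) x G) = ∑ s, Ev (algebraMap A S) x (MvPolynomial.pderiv s G) * dC D (x s) := by
  classical
  induction G using MvPolynomial.induction_on with
  | C a =>
    simp only [MvPolynomial.pderiv_C, Ev, MvPolynomial.eval₂_C, MvPolynomial.eval₂_zero, zero_mul, Finset.sum_const_zero]
    ext n
    rw [dC_coeff, RingHom.comp_apply, coeff_C, coeff_zero]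
    split_ifs
    · exact D.map_algebraMap a
    · exact map_zero D
  | add p q hp hq =>
    have h : Ev (algebraMap A S) x (p + q) = Ev (algebraMap A S) x p + Ev (algebraMap A S) x q := MvPolynomial.eval₂_add _ _
    rw [h, dC_add, hp, hq, ← Finset.sum_add_distrib]
    refine Finset.sum_congr rfl fun s _ => ?_
    rw [map_add, ← add_mul]
    congr 1
    exact (MvPolynomial.eval₂_add _ _).symm
  | mul_X p i hp =>
    have h : Ev (algebraMap A S) x (p * MvPolynomial.X i) = Ev (algebraMap A S) x p * x i := by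
      unfold Ev
      rw [MvPolynomial.eval₂_mul, MvPolynomial.eval₂_X]
    have h2 : ∀ s, Ev (algebraMap A S) x (MvPolynomial.pderiv s (p * MvPolynomial.X i)) =
        Ev (algebraMap A S) x p * (if i = s then 1 else 0) + x i * Ev (algebraMap A S) x (MvPolynomial.pderiv s p) := by
      intro s
      unfold Ev
      rw [Derivation.leibniz, smul_eq_mul, smul_eq_mul, MvPolynomial.pderiv_X, MvPolynomial.eval₂_add, MvPolynomial.eval₂_mul,
        MvPolynomial.eval₂_mul, MvPolynomial.eval₂_X]
      congr 2
      rw [Pi.single_apply]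
      by_cases his : i = s
      · rw [if_pos his, if_pos his, MvPolynomial.eval₂_one]
      · rw [if_neg his, if_neg his, MvPolynomial.eval₂_zero]
    rw [h, dC_mul, hp, Finset.mul_sum]
    have h3 : Ev (algebraMap A S) x p * dC D (x i) = ∑ s, Ev (algebraMap A S) x p * (if i = s then 1 else 0) * dC D (x s) := by
      simp
    rw [h3, ← Finset.sum_add_distrib]
    refine Finset.sum_congr rfl fun s _ => ?_
    rw [h2, add_mul, mul_assoc (x i)]

/-- the family of curves `g + ∑ w_l a_l` -/
noncomputable def Gam (θ : A →+* S) (g : Fin N → A[X]) (a : Fin r → Fin N → A[X]) (w : Fin r → S) (i : Fin N) : S[X] :=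
  (g i).map θ + ∑ l, Polynomial.C (w l) * (a l i).map θ

theorem map_Gam (θ : A →+* S) (φ : S →+* S') (g : Fin N → A[X]) (a : Fin r → Fin N → A[X]) (w : Fin r → S) (i : Fin N) :
    (Gam θ g a w i).map φ = Gam (φ.comp θ) g a (fun l => φ (w l)) i := by
  unfold Gam
  rw [Polynomial.map_add, Polynomial.map_map, Polynomial.map_sum]
  congr 1
  refine Finset.sum_congr rfl fun l _ => ?_
  rw [Polynomial.map_mul, Polynomial.map_C, Polynomial.map_map]

/-- the gradient pairing at `x` -/
noncomputable def Gr (θ : A →+* S) (x : Fin N → S[X]) (G : MvPolynomial (Fin N) A) (b : Fin N → A[X]) : S[X] :=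
  ∑ s, Ev θ x (MvPolynomial.pderiv s G) * (b s).map θ

theorem map_Gr (θ : A →+* S) (φ : S →+* S') (x : Fin N → S[X]) (G : MvPolynomial (Fin N) A) (b : Fin N → A[X]) :
    (Gr θ x G b).map φ = Gr (φ.comp θ) (fun i => (x i).map φ) G b := by
  unfold Gr
  rw [Polynomial.map_sum]
  refine Finset.sum_congr rfl fun s _ => ?_
  rw [Polynomial.map_mul, map_Ev, Polynomial.map_map]

/-- the equations for `w` -/
noncomputable def fE (G : MvPolynomial (Fin N) A) (g : Fin N → A[X]) (a : Fin r → Fin N → A[X]) (l : Fin r) :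
    MvPolynomial (Fin r) A :=
  (Ev MvPolynomial.C (Gam MvPolynomial.C g a MvPolynomial.X) G).coeff l

private theorem E2_comp (θ : A →+* S) (w : Fin r → S) : (MvPolynomial.eval₂Hom θ w).comp MvPolynomial.C = θ :=
  RingHom.ext fun a => MvPolynomial.eval₂Hom_C θ w a

private theorem E2_Gam (θ : A →+* S) (g : Fin N → A[X]) (a : Fin r → Fin N → A[X]) (w : Fin r → S) :
    (fun i => (Gam MvPolynomial.C g a MvPolynomial.X i).map (MvPolynomial.eval₂Hom θ w)) = Gam θ g a w := by
  funext i
  rw [map_Gam, E2_comp]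
  congr 1
  funext l
  exact MvPolynomial.eval₂Hom_X' θ w l

theorem eval_fE (θ : A →+* S) (w : Fin r → S) (G : MvPolynomial (Fin N) A) (g : Fin N → A[X]) (a : Fin r → Fin N → A[X])
    (l : Fin r) : MvPolynomial.eval₂ θ w (fE G g a l) = (Ev θ (Gam θ g a w) G).coeff l := by
  have h := congrArg (fun p => Polynomial.coeff p l) (map_Ev MvPolynomial.C (MvPolynomial.eval₂Hom θ w)
    (Gam MvPolynomial.C g a MvPolynomial.X) G)
  simp only [coeff_map] at h
  rw [E2_Gam, E2_comp] at h
  exact h

theorem eval_pderiv_fE (θ : A →+* S) (w : Fin r → S) (G : MvPolynomial (Fin N) A) (g : Fin N → A[X])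
    (a : Fin r → Fin N → A[X]) (i l : Fin r) :
    MvPolynomial.eval₂ θ w (MvPolynomial.pderiv i (fE G g a l)) = (Gr θ (Gam θ g a w) G (a i)).coeff l := by
  classical
  have h1 : MvPolynomial.pderiv i (fE G g a l) =
      (Gr MvPolynomial.C (Gam MvPolynomial.C g a MvPolynomial.X) G (a i)).coeff l := by
    unfold fE Gr
    rw [← dC_coeff (MvPolynomial.pderiv i)]
    have h2 := dC_Ev (MvPolynomial.pderiv i) (Gam (MvPolynomial.C : A →+* MvPolynomial (Fin r) A) g a MvPolynomial.X) G
    rw [MvPolynomial.algebraMap_eq] at h2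
    rw [h2]
    congr 1
    refine Finset.sum_congr rfl fun s _ => ?_
    congr 1
    ext n
    rw [dC_coeff]
    unfold Gam
    rw [coeff_add, map_add, coeff_map, MvPolynomial.pderiv_C, zero_add, finsetSum_coeff, map_sum, Finset.sum_eq_single i]
    · rw [coeff_C_mul, coeff_map, Derivation.leibniz, MvPolynomial.pderiv_C, smul_zero, zero_add, MvPolynomial.pderiv_X_self,
        smul_eq_mul, mul_one]
    · intro l' _ hl'
      rw [coeff_C_mul, coeff_map, Derivation.leibniz, MvPolynomial.pderiv_C, smul_zero, zero_add,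
        MvPolynomial.pderiv_X_of_ne hl', smul_zero]
    · intro h
      exact absurd (Finset.mem_univ i) h
  rw [h1]
  have h := congrArg (fun p => Polynomial.coeff p l) (map_Gr MvPolynomial.C (MvPolynomial.eval₂Hom θ w)
    (Gam MvPolynomial.C g a MvPolynomial.X) G (a i))
  simp only [coeff_map] at h
  rw [E2_Gam, E2_comp] at h
  exact h

/-- the determinant of the gradient map -/
noncomputable def DE (G : MvPolynomial (Fin N) A) (g : Fin N → A[X]) (a : Fin r → Fin N → A[X]) {m : ℕ}
    (b : Fin m → Fin N → A[X]) : MvPolynomial (Fin r) A :=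
  (Matrix.of fun i j : Fin m => (Gr MvPolynomial.C (Gam MvPolynomial.C g a MvPolynomial.X) G (b i)).coeff j).det

theorem eval_DE (θ : A →+* S) (w : Fin r → S) (G : MvPolynomial (Fin N) A) (g : Fin N → A[X]) (a : Fin r → Fin N → A[X])
    {m : ℕ} (b : Fin m → Fin N → A[X]) : MvPolynomial.eval₂ θ w (DE G g a b) =
      (Matrix.of fun i j : Fin m => (Gr θ (Gam θ g a w) G (b i)).coeff j).det := by
  unfold DE
  change MvPolynomial.eval₂Hom θ w _ = _
  rw [RingHom.map_det]
  congr 1
  refine Matrix.ext fun i j => ?_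
  have h := congrArg (fun p => Polynomial.coeff p j) (map_Gr MvPolynomial.C (MvPolynomial.eval₂Hom θ w)
    (Gam MvPolynomial.C g a MvPolynomial.X) G (b i))
  simp only [coeff_map] at h
  rw [E2_Gam, E2_comp] at h
  exact h

end general

end QB9
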