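import Pool.Agent.LibQB9.E2

/-!
LibQB9: free curves generalise from a special fibre (residue field) to the generic fibre.
-/

set_option autoImplicit false

namespace QB9

open Polynomial

theorem natDegree_Ev {A S : Type} [CommRing A] [CommRing S] {N e d : ℕ} (θ : A →+* S) (x : Fin N → S[X])
    (hx : ∀ i, (x i).natDegree ≤ d) (G : MvPolynomial (Fin N) A) (hG : G.IsHomogeneous e) :
    (Ev θ x G).natDegree ≤ e * d := by
  unfold Ev
  rw [MvPolynomial.eval₂_eq']
  refine natDegree_sum_le_of_forall_le _ _ fun m hm => ?_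
  have hm' : ∑ i, m i = e := by
    have h := hG (MvPolynomial.mem_support_iff.1 hm)
    rw [← h, Finsupp.weight_apply, Finsupp.sum_fintype]
    · simp
    · simp
  refine (natDegree_mul_le).trans ?_
  rw [RingHom.comp_apply, natDegree_C, zero_add]
  refine (natDegree_prod_le _ _).trans ?_
  rw [← hm', Finset.sum_mul]
  exact Finset.sum_le_sum fun i _ => (natDegree_pow_le).trans (Nat.mul_le_mul_left _ (hx i))

/-- lifts of polynomials of bounded degree -/
theorem exists_lift {A κ : Type} [CommRing A] [Field κ] (ρ : A →+* κ) (hρ : Function.Surjective ρ) (p : κ[X]) :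
    ∃ q : A[X], q.map ρ = p ∧ q.degree = p.degree := by
  have h : p ∈ lifts ρ := by
    rw [mem_lifts]
    exact Polynomial.map_surjective ρ hρ p
  exact exists_degree_eq_of_mem_lifts h

theorem free_generic {A K κ : Type} [CommRing A] [IsDomain A] [Field K] [Algebra A K] [Field κ]
    (hAK : Function.Injective (algebraMap A K)) (ρ : A →+* κ) (hρ : Function.Surjective ρ) {n : ℕ} (hn : 2 ≤ n)
    (G : MvPolynomial (Fin (n + 1)) A) (hG : G.IsHomogeneous n) (d : ℕ) (γ₀ : Fin (n + 1) → κ[X])
    (h : Q9.Free (MvPolynomial.map ρ G) d γ₀) :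
    ∃ (L : Type) (_ : Field L) (_ : Algebra K L) (γ : Fin (n + 1) → L[X]),
      Q9.Free (MvPolynomial.map (algebraMap A K) G) d γ := by
  classical
  have hd : 1 ≤ d := h.1
  have hnd : 1 ≤ n * d := Nat.mul_pos (by omega) (by omega)
  have hGκ : (MvPolynomial.map ρ G).IsHomogeneous n := hG.map ρ
  -- the value at a vector over `κ`
  have hEvκ : ∀ (x : Fin (n + 1) → κ[X]) (H : MvPolynomial (Fin (n + 1)) A),
      MvPolynomial.aeval x (MvPolynomial.map ρ H) = Ev ρ x H := by
    intro x H
    rw [MvPolynomial.aeval_def, MvPolynomial.eval₂_map]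
    rfl
  -- data over `κ`
  have ha : ∀ l : Fin (n * d + 1), ∃ a : Fin (n + 1) → κ[X], (∀ i, (a i).natDegree ≤ d) ∧
      Q9.grad (MvPolynomial.map ρ G) γ₀ a = X ^ (l : ℕ) := fun l =>
    h.span_le _ hn hGκ (X ^ (l : ℕ)) (by rw [natDegree_X_pow]; omega)
  have hb : ∀ l : Fin (n * d), ∃ a : Fin (n + 1) → κ[X], (∀ i, (a i).degree < (d : ℕ)) ∧
      Q9.grad (MvPolynomial.map ρ G) γ₀ a = X ^ (l : ℕ) := fun l =>
    h.2.2 (X ^ (l : ℕ)) (by rw [degree_X_pow]; exact_mod_cast l.2)
  choose a₀ ha₀ ha₀' using ha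
  choose b₀ hb₀ hb₀' using hb
  choose lf hlf hlfd using exists_lift ρ hρ
  let g : Fin (n + 1) → A[X] := fun i => lf (γ₀ i)
  let a : Fin (n * d + 1) → Fin (n + 1) → A[X] := fun l i => lf (a₀ l i)
  let b : Fin (n * d) → Fin (n + 1) → A[X] := fun l i => lf (b₀ l i)
  have hgr : ∀ c : Fin (n + 1) → κ[X], Gr ρ γ₀ G (fun i => lf (c i)) = Q9.grad (MvPolynomial.map ρ G) γ₀ c := by
    intro c
    unfold Gr Q9.grad
    refine Finset.sum_congr rfl fun s _ => ?_
    rw [hlf, MvPolynomial.pderiv_map, hEvκ]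
  have hG0 : Gam ρ g a (fun _ => (0 : κ)) = γ₀ := by
    funext i
    unfold Gam
    rw [hlf]
    simp
  -- the point of the special fibre
  have h0 : ∀ l, MvPolynomial.eval₂ ρ (fun _ => (0 : κ)) (fE G g a l) = 0 := by
    intro l
    rw [eval_fE, hG0, ← hEvκ, h.2.1.2, coeff_zero]
  have hJ : MvPolynomial.eval₂ ρ (fun _ => (0 : κ)) (Matrix.of fun i j => MvPolynomial.pderiv i (fE G g a j)).det ≠ 0 := by
    change MvPolynomial.eval₂Hom ρ _ _ ≠ 0
    rw [RingHom.map_det]
    have h1 : (MvPolynomial.eval₂Hom ρ (fun _ => (0 : κ))).mapMatrix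
        (Matrix.of fun i j => MvPolynomial.pderiv i (fE G g a j)) = 1 := by
      refine Matrix.ext fun i j => ?_
      change MvPolynomial.eval₂ ρ (fun _ => (0 : κ)) (MvPolynomial.pderiv i (fE G g a j)) = _
      rw [eval_pderiv_fE, hG0, hgr, ha₀', coeff_X_pow, Matrix.one_apply]
      by_cases hij : i = j
      · rw [if_pos hij, if_pos (by rw [hij])]
      · rw [if_neg hij, if_neg fun h2 => hij (Fin.ext h2.symm)]
    rw [h1, Matrix.det_one]
    exact one_ne_zero
  have hD : MvPolynomial.eval₂ ρ (fun _ => (0 : κ)) (DE G g a b) ≠ 0 := by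
    rw [eval_DE, hG0]
    have h1 : (Matrix.of fun i j : Fin (n * d) => (Gr ρ γ₀ G (b i)).coeff j) = 1 := by
      refine Matrix.ext fun i j => ?_
      change (Gr ρ γ₀ G (b i)).coeff j = _
      rw [hgr, hb₀', coeff_X_pow, Matrix.one_apply]
      by_cases hij : i = j
      · rw [if_pos hij, if_pos (by rw [hij])]
      · rw [if_neg hij, if_neg fun h2 => hij (Fin.ext h2.symm)]
    rw [h1, Matrix.det_one]
    exact one_ne_zero
  obtain ⟨L, i1, i2, w, hw, hwD⟩ := exists_point hAK ρ (fE G g a) (DE G g a b) (fun _ => 0) h0 hJ hD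
  set θ : A →+* L := (algebraMap K L).comp (algebraMap A K) with hθ
  let γ : Fin (n + 1) → L[X] := Gam θ g a w
  have hEv : ∀ (H : MvPolynomial (Fin (n + 1)) A),
      MvPolynomial.aeval γ (MvPolynomial.map (algebraMap A K) H) = Ev θ γ H := by
    intro H
    rw [MvPolynomial.aeval_def, MvPolynomial.eval₂_map]
    rfl
  have hgr2 : ∀ c : Fin (n + 1) → A[X], Q9.grad (MvPolynomial.map (algebraMap A K) G) γ (fun i => (c i).map θ) =
      Gr θ γ G c := by
    intro c
    unfold Gr Q9.grad
    refine Finset.sum_congr rfl fun s _ => ?_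
    rw [MvPolynomial.pderiv_map, hEv]
  have hlf1 : ∀ p : κ[X], (lf p).natDegree = p.natDegree := fun p => natDegree_eq_of_degree_eq (hlfd p)
  have hγd : ∀ i, (γ i).natDegree ≤ d := by
    intro i
    change ((g i).map θ + ∑ l, Polynomial.C (w l) * (a l i).map θ).natDegree ≤ d
    refine (natDegree_add_le _ _).trans (max_le ?_ ?_)
    · refine natDegree_map_le.trans ?_
      rw [hlf1]
      exact h.2.1.1 i
    · refine natDegree_sum_le_of_forall_le _ _ fun l _ => ?_
      refine (natDegree_C_mul_le _ _).trans (natDegree_map_le.trans ?_)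
      rw [hlf1]
      exact ha₀ l i
  refine ⟨L, i1, i2, γ, hd, ⟨hγd, ?_⟩, fun f hf => ?_⟩
  · rw [hEv]
    ext j
    rw [coeff_zero]
    by_cases hj : j < n * d + 1
    · have h1 := hw ⟨j, hj⟩
      rw [eval_fE] at h1
      exact h1
    · refine coeff_eq_zero_of_natDegree_lt (lt_of_le_of_lt (natDegree_Ev θ γ hγd G hG) (by omega))
  · -- the gradient map is onto
    set M : Matrix (Fin (n * d)) (Fin (n * d)) L := Matrix.of fun i j : Fin (n * d) => (Gr θ γ G (b i)).coeff j with hM
    have hMd : M.det ≠ 0 := by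
      rw [eval_DE] at hwD
      exact hwD
    have hMu : IsUnit M.det := isUnit_iff_ne_zero.2 hMd
    let c : Fin (n * d) → L := Matrix.vecMul (fun j : Fin (n * d) => f.coeff j) M⁻¹
    have hc : Matrix.vecMul c M = fun j : Fin (n * d) => f.coeff j := by
      change Matrix.vecMul (Matrix.vecMul _ M⁻¹) M = _
      rw [Matrix.vecMul_vecMul, Matrix.nonsing_inv_mul M hMu, Matrix.vecMul_one]
    have hbd : ∀ l i, ((b l i).map θ).degree < (d : ℕ) := by
      intro l i
      refine lt_of_le_of_lt degree_map_le ?_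
      change (lf (b₀ l i)).degree < _
      rw [hlfd]
      exact hb₀ l i
    refine ⟨fun i => ∑ l, Polynomial.C (c l) * (b l i).map θ, fun i => ?_, ?_⟩
    · refine lt_of_le_of_lt (degree_sum_le _ _) ?_
      refine (Finset.sup_lt_iff (WithBot.bot_lt_coe d)).2 fun l _ => ?_
      rw [← smul_eq_C_mul]
      exact lt_of_le_of_lt (degree_smul_le _ _) (hbd l i)
    · have h1 : Q9.grad (MvPolynomial.map (algebraMap A K) G) γ (fun i => ∑ l, Polynomial.C (c l) * (b l i).map θ) =
          ∑ l, Polynomial.C (c l) * Gr θ γ G (b l) := by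
        simp_rw [← hgr2]
        unfold Q9.grad
        simp_rw [Finset.mul_sum]
        rw [Finset.sum_comm]
        refine Finset.sum_congr rfl fun l _ => Finset.sum_congr rfl fun s _ => ?_
        ring
      have hdeg : ∀ l, (Gr θ γ G (b l)).natDegree < n * d := by
        intro l
        unfold Gr
        refine lt_of_le_of_lt (natDegree_sum_le_of_forall_le (n := n * d - 1) _ _ fun s _ => ?_) (by omega)
        refine natDegree_mul_le.trans ?_
        have h2 := natDegree_Ev θ γ hγd (MvPolynomial.pderiv s G) (hG.pderiv (i := s))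
        have h3 : ((b l s).map θ).natDegree < d := by
          by_cases h0 : (b l s).map θ = 0
          · rw [h0, natDegree_zero]
            omega
          · exact (natDegree_lt_iff_degree_lt h0).2 (hbd l s)
        have h4 : n * d = (n - 1) * d + d := by
          obtain ⟨m, rfl⟩ : ∃ m, n = m + 1 := ⟨n - 1, by omega⟩
          rw [Nat.add_sub_cancel]
          ring
        omega
      rw [h1]
      ext j
      rw [finsetSum_coeff]
      by_cases hj : j < n * d
      · have h2 := congrFun hc ⟨j, hj⟩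
        change _ = f.coeff j at h2
        rw [← h2]
        unfold Matrix.vecMul dotProduct
        refine Finset.sum_congr rfl fun l _ => ?_
        rw [coeff_C_mul]
        rfl
      · rw [coeff_eq_zero_of_degree_lt (lt_of_lt_of_le hf (by exact_mod_cast not_lt.1 hj))]
        refine Finset.sum_eq_zero fun l _ => ?_
        rw [coeff_C_mul, coeff_eq_zero_of_natDegree_lt (lt_of_lt_of_le (hdeg l) (not_lt.1 hj)), mul_zero]

end QB9
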