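import Pool.Agent.LibQ9.QMain

/-!
# LibQB9: points of smooth hypersurfaces of degree `n` in `P^n` over function fields, from one free curve over the
algebraic closure
-/

set_option autoImplicit false

namespace Q9

open Polynomial

/-- the form over the function field -/
theorem points_of_sep_h {n : ℕ} (hn : 4 ≤ n) {k : Type}
    [Field k] [IsAlgClosed k] (hn0 : (n : k) ≠ 0) {K : Type} [Field K] [Algebra (RatFunc k) K]
    [FiniteDimensional (RatFunc k) K] [Algebra.IsSeparable (RatFunc k) K]
    (F : MvPolynomial (Fin (n + 1)) K) (hF : F.IsHomogeneous n)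
    (hs : ∀ x : Fin (n + 1) → AlgebraicClosure K,
      (∀ i, MvPolynomial.aeval x (MvPolynomial.pderiv i F) = 0) → x = 0)
    (hfree : ∃ (d : ℕ) (γ : Fin (n + 1) → (AlgebraicClosure K)[X]),
      Free (MvPolynomial.map (algebraMap K (AlgebraicClosure K)) F) d γ)
    (S : Finset (Fin (n + 1) → K)) :
    ∃ Q : Fin (n + 1) → K, Q ≠ 0 ∧ MvPolynomial.aeval Q F = 0 ∧
      ∀ R ∈ S, ∀ c : K, Q ≠ fun i => c * R i := by
  obtain ⟨P, hP, hP0⟩ := tsen (k := k) (by omega) F hF
  have hn1 : (n : AlgebraicClosure K) ≠ 0 := by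
    intro h
    apply hn0
    have h1 : ((algebraMap K (AlgebraicClosure K)).comp ((algebraMap (RatFunc k) K).comp
      (algebraMap k (RatFunc k)))) (n : k) = 0 := by
      rw [map_natCast]
      exact h
    exact (map_eq_zero _).1 h1
  let F' : MvPolynomial (Fin (n + 1)) (AlgebraicClosure K) :=
    MvPolynomial.map (algebraMap K (AlgebraicClosure K)) F
  have hF' : F'.IsHomogeneous n := hF.map _
  have hs' : Smooth F' := by
    intro x hx
    refine hs x fun i => ?_
    have h1 := hx i
    rw [MvPolynomial.pderiv_map, MvPolynomial.eval_map] at h1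
    exact h1
  have hv := very_free hn hn1 F' hF' hs' (hu hn hn1 F' hF' hs') hfree
  refine infinite_points (k := k) (by omega) F hF P hP (by rw [← MvPolynomial.coe_aeval_eq_eval] at hP0; exact hP0) ?_ S
  intro Q hQ hQ0
  have hQ' : (fun i => algebraMap K (AlgebraicClosure K) (Q i)) ≠ 0 := by
    intro h
    apply hQ
    funext i
    have h1 := congrFun h i
    simpa using h1
  have hQ0' : MvPolynomial.aeval (fun i => algebraMap K (AlgebraicClosure K) (Q i)) F' = 0 := by
    have h1 : MvPolynomial.aeval (fun i => algebraMap K (AlgebraicClosure K) (Q i)) F' =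
        algebraMap K (AlgebraicClosure K) (MvPolynomial.aeval Q F) := by
      change MvPolynomial.aeval _ (MvPolynomial.map _ F) = _
      rw [MvPolynomial.aeval_map_algebraMap]
      exact MvPolynomial.aeval_algebraMap_apply (AlgebraicClosure K) Q F
    rw [h1, hQ0, map_zero]
  obtain ⟨d, γ, hγ, hγ0⟩ := free_through (by omega) F' hF' hs' hv _ hQ' hQ0'
  exact ⟨d, γ, (free_bc F d γ).1 hγ, hγ0⟩

/-- the statement for a function field of one variable -/
theorem infinitely_many_h {n : ℕ} (hn : 4 ≤ n) {k K : Type}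
    [Field k] [IsAlgClosed k] (hn0 : (n : k) ≠ 0) [Field K] [Algebra k K] [Algebra.EssFiniteType k K]
    (htr : Algebra.trdeg k K = 1)
    (F : MvPolynomial (Fin (n + 1)) K) (hF : F.IsHomogeneous n)
    (hs : ∀ x : Fin (n + 1) → AlgebraicClosure K,
      (∀ i, MvPolynomial.aeval x (MvPolynomial.pderiv i F) = 0) → x = 0)
    (hfree : ∃ (d : ℕ) (γ : Fin (n + 1) → (AlgebraicClosure K)[X]),
      Free (MvPolynomial.map (algebraMap K (AlgebraicClosure K)) F) d γ)
    (S : Finset (Fin (n + 1) → K)) :
    ∃ Q : Fin (n + 1) → K, Q ≠ 0 ∧ MvPolynomial.aeval Q F = 0 ∧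
      ∀ R ∈ S, ∀ c : K, Q ≠ fun i => c * R i := by
  obtain ⟨_, _, _, _⟩ := exists_ratfunc htr
  exact points_of_sep_h (k := k) hn hn0 F hF hs hfree S

end Q9
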